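import Pool.Agent.Y171.CE.Stm

/-! Spectral gap on `SL_2(F)`. -/

set_option autoImplicit false
set_option maxHeartbeats 1000000

namespace Pool.Agent.Y784.CE

open Pool.Agent.Y171.CE Polynomial

/-- functions with sum zero -/
def V0 (G : Type) [Fintype G] : Submodule ℂ (G → ℂ) where
  carrier := {f | ∑ x, f x = 0}
  add_mem' := by
    intro a b ha hb
    simp only [Set.mem_setOf_eq, Pi.add_apply, Finset.sum_add_distrib] at *
    rw [ha, hb, add_zero]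
  zero_mem' := by simp
  smul_mem' := by
    intro c a ha
    simp only [Set.mem_setOf_eq, Pi.smul_apply, smul_eq_mul] at *
    rw [← Finset.mul_sum, ha, mul_zero]

lemma mem_V0 {G : Type} [Fintype G] {f : G → ℂ} : f ∈ V0 G ↔ ∑ x, f x = 0 := Iff.rfl

lemma T_mem_V0 {G : Type} [Group G] [Fintype G] (μ : G → ℝ) {f : G → ℂ} (hf : f ∈ V0 G) :
    T μ f ∈ V0 G := by
  rw [mem_V0] at *
  unfold T
  rw [Finset.sum_comm]
  refine Finset.sum_eq_zero fun s _ => ?_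
  rw [← Finset.mul_sum]
  have : ∑ x, f (x * s) = ∑ x, f x := Fintype.sum_equiv (Equiv.mulRight s) _ _ fun x => rfl
  rw [this, hf, mul_zero]

lemma L_mem_V0 {G : Type} [Group G] [Fintype G] {f : G → ℂ} (hf : f ∈ V0 G) (g : G) :
    (fun x => f (g * x)) ∈ V0 G := by
  rw [mem_V0] at *
  rw [← hf]
  exact Fintype.sum_equiv (Equiv.mulLeft g) _ _ fun x => rfl

lemma sq_nonneg' {G : Type} [Fintype G] (f : G → ℂ) : 0 ≤ Pool.Agent.Y171.CE.sq f :=
  Finset.sum_nonneg fun x _ => by positivity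

lemma num_bound {p c : ℕ} (hp : 2 ^ 1000 ≤ p) (hc : p ≤ c) :
    4 * (17 * (2 * (3 * c) + 1) * 256 ^ (3 * c) * p ^ 3 * (2 ^ 600) ^ (3 * c)) ≤ p ^ (2 * c) := by
  have h1 : c < 2 ^ c := Nat.lt_two_pow_self
  have h2 : p < 2 ^ p := Nat.lt_two_pow_self
  have h3 : p ≤ 2 ^ c := h2.le.trans (Nat.pow_le_pow_right (by norm_num) hc)
  have hc1 : 1 ≤ c := le_trans (le_trans (Nat.one_le_two_pow) hp) hc
  have e1 : (256 : ℕ) ^ (3 * c) = 2 ^ (24 * c) := by
    rw [show (256 : ℕ) = 2 ^ 8 by norm_num, ← pow_mul]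
    congr 1
    ring
  have e2 : ((2 : ℕ) ^ 600) ^ (3 * c) = 2 ^ (1800 * c) := by
    rw [← pow_mul]
    congr 1
    ring
  have h4 : 68 * (6 * c + 1) ≤ 2 ^ 9 * 2 ^ c := by
    have : (2 : ℕ) ^ 9 = 512 := by norm_num
    rw [this]
    omega
  have h5 : p ^ 3 ≤ 2 ^ (3 * c) := by
    calc p ^ 3 ≤ (2 ^ c) ^ 3 := Nat.pow_le_pow_left h3 3
      _ = 2 ^ (3 * c) := by rw [← pow_mul]; congr 1; ring
  rw [e1, e2]
  calc 4 * (17 * (2 * (3 * c) + 1) * 2 ^ (24 * c) * p ^ 3 * 2 ^ (1800 * c))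
      = (68 * (6 * c + 1)) * 2 ^ (24 * c) * p ^ 3 * 2 ^ (1800 * c) := by ring
    _ ≤ (2 ^ 9 * 2 ^ c) * 2 ^ (24 * c) * 2 ^ (3 * c) * 2 ^ (1800 * c) := by gcongr
    _ = 2 ^ (9 + c + 24 * c + 3 * c + 1800 * c) := by
        rw [← pow_add, ← pow_add, ← pow_add, ← pow_add]
    _ ≤ 2 ^ (1000 * (2 * c)) := Nat.pow_le_pow_right (by norm_num) (by omega)
    _ = (2 ^ 1000) ^ (2 * c) := by rw [← pow_mul]
    _ ≤ p ^ (2 * c) := Nat.pow_le_pow_left hp _

theorem gapq : S_NIL → S_SYM → S_MUQ → S_RETQ → S_CSL → S_SPEC → S_DIMQ → S_GAPQ := by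
  intro _ hsym hmuq hretq hcsl hspec hdimq p hpr hp
  refine ⟨2 * p, fun k hk h2k F _ _ _ _ x hx f hf => ?_⟩
  obtain ⟨c, rfl⟩ := h2k
  have hpc : p ≤ c := by omega
  have hp2 : 2 < p := by
    have h : (2 : ℕ) ^ 2 ≤ 2 ^ 1000 := Nat.pow_le_pow_right (by norm_num) (by norm_num)
    omega
  have hc1 : 1 ≤ c := by omega
  have hbig := num_bound hp hpc
  have hcard := hx.card
  -- the characteristic
  have h2F : (2 : F) ≠ 0 := by
    have : CharP F p := charP_of_injective_algebraMap (algebraMap (ZMod p) F).injective p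
    intro h
    have h' : ((2 : ℕ) : F) = 0 := by exact_mod_cast h
    rw [CharP.cast_eq_zero_iff F p] at h'
    exact absurd (Nat.le_of_dvd (by norm_num) h') (by omega)
  set q := Fintype.card F with hq
  set μ := muQ (p := p) x with hμ
  obtain ⟨-, -, -, hμ0, -, hμs⟩ := hsym p F ⊥ x
  -- the inequality of the trace
  have hs := hspec (SL2 F) μ hμs (V0 _) (fun f hf => T_mem_V0 μ hf) (fun f hf g => L_mem_V0 hf g)
    ((q - 1) / 2) (fun V' hV' hinv hne => by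
      have h1 := hdimq F h2F V' hinv hne (fun f hf => mem_V0.1 (hV' hf))
      exact Nat.div_le_of_le_mul h1) (3 * c) (by omega) f (mem_V0.2 hf)
  -- the return probability
  have hpos : (0 : ℝ) < p := by
    have : 0 < p := by omega
    exact_mod_cast this
  have h3 : (Fintype.card (SL2 F) : ℝ) * cpow μ (2 * (3 * c)) 1 ≤
      17 * (2 * (3 * c) + 1) * 256 ^ (3 * c) * (p : ℝ) ^ 3 := by
    have h4 := hmuq p F x (2 * (3 * c)) 1
    have h5 := hretq p (2 * c) F x hx (3 * c) (by omega)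
    have h6 := (hcsl F).2.1
    rw [← hq, hcard] at h6
    have h5' : (Nat.card {h : Fin (2 * (3 * c)) → NilT p // pw x (List.ofFn h) = 1} : ℝ) *
        (p : ℝ) ^ (3 * (2 * c)) ≤ 17 * (2 * (3 * c) + 1) * 256 ^ (3 * c) * (p : ℝ) ^ 3 *
          (p : ℝ) ^ (4 * (3 * c)) := by exact_mod_cast h5
    have h6' : (Fintype.card (SL2 F) : ℝ) ≤ (p : ℝ) ^ (3 * (2 * c)) := by
      have : (Fintype.card (SL2 F) : ℝ) ≤ ((p : ℝ) ^ (2 * c)) ^ 3 := by exact_mod_cast h6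
      refine this.trans (le_of_eq ?_)
      rw [← pow_mul]
      congr 1
      ring
    rw [← hμ] at h4
    rw [h4]
    have e : ((p : ℝ) ^ 2) ^ (2 * (3 * c)) = (p : ℝ) ^ (4 * (3 * c)) := by
      rw [← pow_mul]
      congr 1
      ring
    rw [e, mul_div_assoc', div_le_iff₀ (by positivity)]
    have h7 : (0 : ℝ) ≤ (Nat.card {h : Fin (2 * (3 * c)) → NilT p // pw x (List.ofFn h) = 1} : ℝ) := by
      positivity
    calc (Fintype.card (SL2 F) : ℝ) *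
          (Nat.card {h : Fin (2 * (3 * c)) → NilT p // pw x (List.ofFn h) = 1} : ℝ) ≤
        (p : ℝ) ^ (3 * (2 * c)) *
          (Nat.card {h : Fin (2 * (3 * c)) → NilT p // pw x (List.ofFn h) = 1} : ℝ) := by gcongr
      _ = (Nat.card {h : Fin (2 * (3 * c)) → NilT p // pw x (List.ofFn h) = 1} : ℝ) *
          (p : ℝ) ^ (3 * (2 * c)) := mul_comm _ _
      _ ≤ _ := h5'
  set M : ℝ := 17 * (2 * (3 * c) + 1) * 256 ^ (3 * c) * (p : ℝ) ^ 3 with hM
  have hM0 : 0 < M := by positivity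
  set X := Pool.Agent.Y171.CE.sq (T μ f) with hX
  set Y := Pool.Agent.Y171.CE.sq f with hY
  have hX0 : 0 ≤ X := sq_nonneg' _
  have hY0 : 0 ≤ Y := sq_nonneg' _
  have hs' : X ^ (3 * c) * (((q - 1) / 2 : ℕ) : ℝ) ≤ M * Y ^ (3 * c) :=
    hs.trans (by gcongr)
  -- the dimension is large
  have hD : M * (2 ^ 600) ^ (3 * c) ≤ (((q - 1) / 2 : ℕ) : ℝ) := by
    have h8 : 17 * (2 * (3 * c) + 1) * 256 ^ (3 * c) * p ^ 3 * (2 ^ 600) ^ (3 * c) ≤
        (q - 1) / 2 := by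
      rw [hcard]
      have h9 : 1 ≤ 17 * (2 * (3 * c) + 1) * 256 ^ (3 * c) * p ^ 3 * (2 ^ 600) ^ (3 * c) := by
        have : 0 < p := by omega
        exact Nat.succ_le_of_lt (by positivity)
      generalize 17 * (2 * (3 * c) + 1) * 256 ^ (3 * c) * p ^ 3 * (2 ^ 600) ^ (3 * c) = A at *
      omega
    rw [hM]
    exact_mod_cast h8
  by_contra hcon
  rw [not_le] at hcon
  have h10 : ((1 / 2 : ℝ) ^ 600 * Y) ^ (3 * c) < X ^ (3 * c) :=
    pow_lt_pow_left₀ hcon (by positivity) (by omega)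
  have hDpos : (0 : ℝ) < (((q - 1) / 2 : ℕ) : ℝ) := lt_of_lt_of_le (by positivity) hD
  have h11 : M * Y ^ (3 * c) ≤ ((1 / 2 : ℝ) ^ 600 * Y) ^ (3 * c) * (((q - 1) / 2 : ℕ) : ℝ) := by
    calc M * Y ^ (3 * c) = ((1 / 2 : ℝ) ^ 600 * Y) ^ (3 * c) * (M * (2 ^ 600) ^ (3 * c)) := by
          rw [mul_pow, one_div, inv_pow]
          have h12 : (((2 : ℝ) ^ 600)⁻¹) ^ (3 * c) * ((2 : ℝ) ^ 600) ^ (3 * c) = 1 := by
            rw [← mul_pow, inv_mul_cancel₀ (by positivity), one_pow]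
          linear_combination (-M * Y ^ (3 * c)) * h12
      _ ≤ _ := by gcongr
  have h13 : ((1 / 2 : ℝ) ^ 600 * Y) ^ (3 * c) * (((q - 1) / 2 : ℕ) : ℝ) <
      X ^ (3 * c) * (((q - 1) / 2 : ℕ) : ℝ) := mul_lt_mul_of_pos_right h10 hDpos
  linarith

end Pool.Agent.Y784.CE
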